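import Pool.Agent.W619.TW.Der

/-! Vector fields on the projective line. -/

set_option autoImplicit false
set_option linter.overlappingInstances false
set_option linter.unusedSectionVars false

open FF Polynomial Pool.Agent.W619.PQ Pool.Agent.W619.TW Pool.Agent.W603.LV

namespace Pool.Agent.K1H60.LP

section

variable {k K : Type} [Field k] [Field K] [Algebra k K] {X : K}

theorem ae_ne (hX : Transcendental k X) {p : k[X]} (hp : p ≠ 0) : aeval X p ≠ 0 :=
  fun h => hp ((transcendental_iff.1 hX) p h)

theorem exists_frac (htop : IntermediateField.adjoin k {X} = ⊤)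
    (z : K) : ∃ A B : k[X], B ≠ 0 ∧ z = aeval X A / aeval X B := by
  have hz : z ∈ IntermediateField.adjoin k {X} := by
    rw [htop]
    exact IntermediateField.mem_top
  obtain ⟨r, s, h⟩ := (IntermediateField.mem_adjoin_simple_iff k z).1 hz
  by_cases hs : s = 0
  · refine ⟨0, 1, one_ne_zero, ?_⟩
    rw [h, hs]
    simp
  · exact ⟨r, s, hs, h⟩

theorem ord_frac (hX : Transcendental k X) (q : Place k K) {A B : k[X]} (hA : A ≠ 0)
    (hB : B ≠ 0) : q.ord (aeval X A / aeval X B) = q.ord (aeval X A) - q.ord (aeval X B) :=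
  q.ord_div (ae_ne hX hA) (ae_ne hX hB)

theorem der_frac (hX : Transcendental k X) (D : Derivation k K K) (hD : D X = 1)
    {A B : k[X]} (hB : B ≠ 0) : D (aeval X A / aeval X B) =
      aeval X (derivative A * B - A * derivative B) / aeval X (B * B) := by
  have hB' := ae_ne hX hB
  rw [Derivation.leibniz_div, Derivation.map_aeval, Derivation.map_aeval, hD]
  simp only [smul_eq_mul, mul_one, map_sub, map_mul]
  field_simp

/-- The vector field `d/dX` is regular at the finite points. -/
theorem pres_fin (hX : Transcendental k X) (htop : IntermediateField.adjoin k {X} = ⊤)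
    {q : Place k K} {a : k} (hq : ∀ p : k[X], p ≠ 0 → q.ord (aeval X p) = p.rootMultiplicity a)
    (D : Derivation k K K) (hD : D X = 1) : Pres q D := by
  intro z hz
  by_cases hz0 : z = 0
  · rw [hz0, map_zero]
    exact q.reg_zero
  have hz1 : 0 ≤ q.ord z := hz.resolve_left hz0
  obtain ⟨A, B, hB, h⟩ := exists_frac htop z
  have hA : A ≠ 0 := by
    rintro rfl
    apply hz0
    rw [h]
    simp
  rw [h, ord_frac hX q hA hB, hq A hA, hq B hB] at hz1
  have h1 : B.rootMultiplicity a ≤ A.rootMultiplicity a := by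
    have : (B.rootMultiplicity a : ℤ) ≤ A.rootMultiplicity a := by linarith
    exact_mod_cast this
  obtain ⟨A', hA'⟩ := (le_rootMultiplicity_iff hA).1 h1
  obtain ⟨B', hB'⟩ := (le_rootMultiplicity_iff hB).1 (le_refl (B.rootMultiplicity a))
  have hB0 : B' ≠ 0 := by
    rintro rfl
    apply hB
    rw [hB', mul_zero]
  have hx : (Polynomial.X : k[X]) - C a ≠ 0 := X_sub_C_ne_zero a
  have hm : B'.rootMultiplicity a = 0 := by
    have h2 := congrArg (rootMultiplicity a) hB'
    rw [rootMultiplicity_mul (by rw [← hB']; exact hB), rootMultiplicity_X_sub_C_pow] at h2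
    omega
  have h3 : z = aeval X A' / aeval X B' := by
    rw [h, hA', hB', map_mul, map_mul]
    rw [← hB']
    exact mul_div_mul_left _ _ (ae_ne hX (pow_ne_zero _ hx))
  rw [h3, der_frac hX D hD hB0]
  by_cases h4 : derivative A' * B' - A' * derivative B' = 0
  · rw [h4, map_zero, zero_div]
    exact q.reg_zero
  · right
    rw [ord_frac hX q h4 (mul_ne_zero hB0 hB0), hq _ h4, hq _ (mul_ne_zero hB0 hB0),
      rootMultiplicity_mul (mul_ne_zero hB0 hB0), hm]
    simp

/-- The vector field `X ^ 2 d/dX` is regular at infinity. -/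
theorem pres_inf (hX : Transcendental k X) (htop : IntermediateField.adjoin k {X} = ⊤)
    {q : Place k K} (hq : ∀ p : k[X], p ≠ 0 → q.ord (aeval X p) = -(p.natDegree : ℤ))
    (hc : ∀ z : K, Ge q 0 z → ∃ c : k, Ge q 1 (z - algebraMap k K c))
    (D : Derivation k K K) (hD : D X = 1) : Pres q (X ^ 2 • D) := by
  intro z hz
  obtain ⟨c, hc⟩ := hc z hz
  set w := z - algebraMap k K c with hw
  have hDz : D z = D w := by
    rw [hw, map_sub, Derivation.map_algebraMap, sub_zero]
  rw [Derivation.smul_apply, smul_eq_mul, hDz]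
  by_cases hw0 : w = 0
  · rw [hw0, map_zero, mul_zero]
    exact q.reg_zero
  have hw1 : 1 ≤ q.ord w := hc.resolve_left hw0
  obtain ⟨A, B, hB, h⟩ := exists_frac htop w
  have hA : A ≠ 0 := by
    rintro rfl
    apply hw0
    rw [h]
    simp
  rw [h, ord_frac hX q hA hB, hq A hA, hq B hB] at hw1
  rw [h, der_frac hX D hD hB]
  by_cases h4 : derivative A * B - A * derivative B = 0
  · rw [h4, map_zero, zero_div, mul_zero]
    exact q.reg_zero
  have hX0 : X ≠ 0 := by
    have := ae_ne hX (X_ne_zero (R := k))
    rwa [aeval_X] at this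
  have hXo : q.ord X = -1 := by
    have := hq _ (X_ne_zero (R := k))
    rw [aeval_X, natDegree_X] at this
    exact_mod_cast this
  right
  rw [q.ord_mul (pow_ne_zero 2 hX0) (div_ne_zero (ae_ne hX h4) (ae_ne hX (mul_ne_zero hB hB))),
    ord_frac hX q h4 (mul_ne_zero hB hB), hq _ h4, hq _ (mul_ne_zero hB hB), q.ord_pow, hXo,
    natDegree_mul hB hB]
  have h5 : (derivative A * B - A * derivative B).natDegree + 1 ≤ A.natDegree + B.natDegree := by
    have hdA := natDegree_derivative_le A
    have hdB := natDegree_derivative_le B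
    have hB1 : 1 ≤ B.natDegree := by omega
    refine Nat.succ_le_of_lt (lt_of_le_of_lt (natDegree_sub_le _ _) (max_lt ?_ ?_))
    · by_cases hA1 : A.natDegree = 0
      · have : derivative A = 0 := by
          rw [natDegree_eq_zero] at hA1
          obtain ⟨x, rfl⟩ := hA1
          exact derivative_C
        rw [this, zero_mul, natDegree_zero]
        omega
      · refine lt_of_le_of_lt natDegree_mul_le ?_
        omega
    · refine lt_of_le_of_lt natDegree_mul_le ?_
      omega
  push_cast
  omega

/-- Functions with nonnegative order at all finite points have nonpositive order at infinity. -/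
theorem ord_inf_le [IsAlgClosed k] (hX : Transcendental k X)
    (htop : IntermediateField.adjoin k {X} = ⊤)
    {q : Place k K} (hq : ∀ p : k[X], p ≠ 0 → q.ord (aeval X p) = -(p.natDegree : ℤ))
    {z : K} (hz : z ≠ 0) (h : ∀ a : k, ∃ q' : Place k K,
      (∀ p : k[X], p ≠ 0 → q'.ord (aeval X p) = p.rootMultiplicity a) ∧ 0 ≤ q'.ord z) :
    q.ord z ≤ 0 := by
  classical
  obtain ⟨A, B, hB, hAB⟩ := exists_frac htop z
  have hA : A ≠ 0 := by
    rintro rfl
    apply hz
    rw [hAB]
    simp
  have h1 : B.roots ≤ A.roots := by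
    rw [Multiset.le_iff_count]
    intro a
    rw [count_roots, count_roots]
    obtain ⟨q', hq', h2⟩ := h a
    rw [hAB, ord_frac hX q' hA hB, hq' A hA, hq' B hB] at h2
    have : (B.rootMultiplicity a : ℤ) ≤ A.rootMultiplicity a := by linarith
    exact_mod_cast this
  have h2 := Multiset.card_le_card h1
  rw [IsAlgClosed.card_roots_eq_natDegree, IsAlgClosed.card_roots_eq_natDegree] at h2
  rw [hAB, ord_frac hX q hA hB, hq A hA, hq B hB]
  omega

/-- The multiplicities of two polynomials with a squarefree product. -/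
theorem mult_sqf {f g : k[X]} (h : Squarefree (f * g)) (a : k) :
    f.rootMultiplicity a + g.rootMultiplicity a ≤ 1 := by
  have h0 : f * g ≠ 0 := h.ne_zero
  rw [← rootMultiplicity_mul h0]
  by_contra hc
  have h1 : 2 ≤ (f * g).rootMultiplicity a := by omega
  have h2 := (le_rootMultiplicity_iff h0).1 h1
  rw [pow_two] at h2
  exact not_isUnit_X_sub_C a (h _ h2)

theorem isTrans (hX : Transcendental k X) (htop : IntermediateField.adjoin k {X} = ⊤) :
    IsTranscendenceBasis k (fun _ : Fin 1 => X) := by
  have h1 : AlgebraicIndependent k (fun _ : Fin 1 => X) :=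
    (algebraicIndependent_singleton_iff (0 : Fin 1)).2 hX
  rw [h1.isTranscendenceBasis_iff_isAlgebraic]
  have h2 : Set.range (fun _ : Fin 1 => X) = {X} := Set.range_const
  rw [h2]
  refine ⟨fun z => ?_⟩
  obtain ⟨A, B, hB, h⟩ := exists_frac htop z
  have hm : ∀ p : k[X], aeval X p ∈ Algebra.adjoin k {X} := fun p => by
    rw [Algebra.adjoin_singleton_eq_range_aeval]
    exact ⟨p, rfl⟩
  refine ⟨C (⟨aeval X B, hm B⟩ : Algebra.adjoin k {X}) * Polynomial.X - C ⟨aeval X A, hm A⟩,
    ?_, ?_⟩
  · intro h0
    have h3 := congrArg (fun p => p.coeff 1) h0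
    simp only [coeff_sub, coeff_C_mul, coeff_X_one, mul_one, coeff_zero, coeff_C_succ,
      sub_zero] at h3
    have h4 := congrArg Subtype.val h3
    exact ae_ne hX hB h4
  · rw [map_sub, map_mul, aeval_C, aeval_X, aeval_C]
    change aeval X B * z - aeval X A = 0
    rw [h, mul_div_cancel₀ _ (ae_ne hX hB), sub_self]

end

end Pool.Agent.K1H60.LP
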