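import Pool.Agent.K1H17.LP.Stm2
import Pool.Agent.K1H60.LP.Ln

/-! The degree of a form on the line. -/

set_option autoImplicit false
set_option linter.overlappingInstances false
set_option linter.unusedSectionVars false

open FF Polynomial Pool.Agent.W619.PQ Pool.Agent.W619.TW Pool.Agent.W603.LV Pool.Agent.Y174
  Pool.Agent.K1H17.IS Pool.Agent.K1H17.TP Pool.Agent.K1H17.LP

namespace Pool.Agent.K1H60.LP

theorem t_DEG (hPLC : S_PLC) : S_DEG := by
  intro k K _ _ _ _ _ X hX f hf S
  classical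
  obtain ⟨-, hfin, hinf, -, -, hdiv, hres⟩ := hPLC k K X hX
  obtain ⟨htr, htop⟩ := hX
  choose A B hB hAB using exists_frac htop
  have hP0 : (∏ s ∈ S, B s) ≠ 0 := Finset.prod_ne_zero_iff.2 fun s _ => hB s
  have hA0 : ∀ s, s ≠ 0 → A s ≠ 0 := by
    intro s hs h0
    apply hs
    rw [hAB s, h0]
    simp
  refine ⟨((∏ s ∈ S, B s).natDegree : ℝ) + ((∑ s ∈ S, (A s).natDegree : ℕ) : ℝ), ?_⟩
  intro m ω γ hω hγ hω0
  have hf0 : ∀ c, f c ≠ 0 := by
    intro c
    fin_cases c
    · exact left_ne_zero_of_mul hf.ne_zero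
    · exact right_ne_zero_of_mul hf.ne_zero
  have hfX : ∀ c, aeval X (f c) ≠ 0 := fun c => ae_ne htr (hf0 c)
  have hT := isTrans htr htop
  obtain ⟨E, hE⟩ := Pool.Agent.W636.PG.exists_duals k K 1 _ hT
  have hE0 : E 0 X = 1 := by
    have := hE 0 0
    rwa [if_pos rfl] at this
  have hval : ∀ D : Fin 1 → Derivation k K K, ω D = (D 0 X) ^ m * ω E := by
    intro D
    rw [Pool.Agent.W636.PG.form_eq k K 1 m _ hT E hE ω hω.1 D, Matrix.det_fin_one]
    rfl
  have hG : ω E ≠ 0 := by
    intro h0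
    apply hω0
    funext D
    rw [hval D, h0, mul_zero]
    rfl
  have hX0 : X ≠ 0 := by
    have := ae_ne htr (X_ne_zero (R := k))
    rwa [aeval_X] at this
  -- the place at infinity
  obtain ⟨qi, hqi⟩ := hinf
  have hXo : qi.ord X = -1 := by
    have := hqi _ (X_ne_zero (R := k))
    rw [aeval_X, natDegree_X] at this
    exact_mod_cast this
  have hlow : 2 * (m : ℤ) - (∑ s ∈ S, (A s).natDegree : ℕ) ≤ qi.ord (ω E) := by
    have hnb : ¬ bd X f qi := by
      rintro ⟨c, a, ha, -⟩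
      have h1 := ha (Polynomial.X - C a) (X_sub_C_ne_zero a)
      have h2 := hqi (Polynomial.X - C a) (X_sub_C_ne_zero a)
      rw [h1, rootMultiplicity_X_sub_C_self, natDegree_X_sub_C] at h2
      norm_num at h2
    have h1 := hω.2.1 qi (hdiv qi) hnb (fun _ => X ^ 2 • E 0) (fun l f' hf' =>
      pres_inf htr htop hqi (fun z hz => hres qi z hz) (E 0) hE0 f' hf')
    have h2 : ω (fun _ => X ^ 2 • E 0) = (X ^ 2) ^ m * ω E := by
      rw [hval]
      simp only [Derivation.smul_apply, hE0, smul_eq_mul, mul_one]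
    rw [h2] at h1
    rcases h1 with h1 | ⟨s, hs, hs0, h1⟩
    · exact absurd h1 (mul_ne_zero (pow_ne_zero _ (pow_ne_zero _ hX0)) hG)
    · rw [qi.ord_mul (pow_ne_zero _ (pow_ne_zero _ hX0)) hG, qi.ord_pow, qi.ord_pow, hXo] at h1
      have h3 : qi.ord s = -((A s).natDegree : ℤ) + (B s).natDegree := by
        conv_lhs => rw [hAB s]
        rw [ord_frac htr qi (hA0 s hs0) (hB s), hqi _ (hA0 s hs0), hqi _ (hB s)]
        ring
      have h4 : (A s).natDegree ≤ ∑ s ∈ S, (A s).natDegree :=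
        Finset.single_le_sum (f := fun s => (A s).natDegree) (fun _ _ => Nat.zero_le _) hs
      have h5 : ((A s).natDegree : ℤ) ≤ ((∑ s ∈ S, (A s).natDegree : ℕ) : ℤ) := by
        exact_mod_cast h4
      push_cast at h1 ⊢
      push_cast at h5
      rw [h3] at h1
      linarith
  -- the function `H`
  have hHord : ∀ q : Place k K, q.ord (ω E * aeval X (∏ s ∈ S, B s) *
      (aeval X (f 0) ^ ((m : ℤ) - ⌈γ 0⌉) * aeval X (f 1) ^ ((m : ℤ) - ⌈γ 1⌉))) =
      q.ord (ω E) + q.ord (aeval X (∏ s ∈ S, B s)) + (((m : ℤ) - ⌈γ 0⌉) * q.ord (aeval X (f 0)) +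
        ((m : ℤ) - ⌈γ 1⌉) * q.ord (aeval X (f 1))) := by
    intro q
    rw [q.ord_mul (mul_ne_zero hG (ae_ne htr hP0))
      (mul_ne_zero (zpow_ne_zero _ (hfX 0)) (zpow_ne_zero _ (hfX 1))),
      q.ord_mul hG (ae_ne htr hP0), q.ord_mul (zpow_ne_zero _ (hfX 0)) (zpow_ne_zero _ (hfX 1)),
      q.ord_zpow, q.ord_zpow]
  have hH := ord_inf_le htr htop hqi (z := ω E * aeval X (∏ s ∈ S, B s) *
      (aeval X (f 0) ^ ((m : ℤ) - ⌈γ 0⌉) * aeval X (f 1) ^ ((m : ℤ) - ⌈γ 1⌉)))
    (mul_ne_zero (mul_ne_zero hG (ae_ne htr hP0))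
      (mul_ne_zero (zpow_ne_zero _ (hfX 0)) (zpow_ne_zero _ (hfX 1)))) (by
    intro a
    obtain ⟨q, hq⟩ := hfin a
    refine ⟨q, hq, ?_⟩
    rw [hHord, hq _ hP0, hq _ (hf0 0), hq _ (hf0 1)]
    have hsum := mult_sqf hf a
    have hpres := pres_fin htr htop hq (E 0) hE0
    -- at the roots of `f c`
    have hroot : ∀ c, (f c).rootMultiplicity a ≠ 0 → ⌈γ c⌉ ≤ (m : ℤ) + q.ord (ω E) := by
      intro c hc
      have hr : (f c).IsRoot a := by
        rw [← rootMultiplicity_pos (hf0 c)]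
        exact Nat.pos_of_ne_zero hc
      set t : K := aeval X ((Polynomial.X : k[X]) - C a) with ht
      have ht0 : t ≠ 0 := ae_ne htr (X_sub_C_ne_zero a)
      have ht1 : q.ord t = 1 := by
        rw [ht, hq _ (X_sub_C_ne_zero a), rootMultiplicity_X_sub_C_self]
        norm_num
      have hEt : E 0 t = 1 := by
        rw [ht, Derivation.map_aeval, hE0]
        simp
      have hp : Pres q (t • E 0) := by
        intro z hz
        rw [Derivation.smul_apply, smul_eq_mul]
        exact q.reg_mul (Or.inr (by rw [ht1]; norm_num)) (hpres z hz)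
      have h1 := hγ c a q hq hr (fun _ => t • E 0) (fun _ => hp) (fun _ z =>
        log_of_pres q _ hp ht0 ht1 (by
          rw [Derivation.smul_apply, hEt, smul_eq_mul, mul_one, div_self ht0]
          exact q.reg_one) z)
      have h2 : ω (fun _ => t • E 0) = t ^ m * ω E := by
        rw [hval]
        have : E 0 X = 1 := hE0
        simp only [Derivation.smul_apply, this, smul_eq_mul, mul_one]
      rw [h2] at h1
      have h3 := h1.resolve_left (mul_ne_zero (pow_ne_zero _ ht0) hG)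
      rw [q.ord_mul (pow_ne_zero _ ht0) hG, q.ord_pow, ht1] at h3
      rw [Int.ceil_le]
      push_cast at h3 ⊢
      linarith
    -- outside the roots
    have hout : (f 0).rootMultiplicity a = 0 → (f 1).rootMultiplicity a = 0 →
        0 ≤ q.ord (ω E) + ((∏ s ∈ S, B s).rootMultiplicity a : ℤ) := by
      intro h0 h1
      have hnb : ¬ bd X f q := by
        rintro ⟨c, a', ha', hr⟩
        have h2 := hq (Polynomial.X - C a) (X_sub_C_ne_zero a)
        rw [ha' (Polynomial.X - C a) (X_sub_C_ne_zero a), rootMultiplicity_X_sub_C_self,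
          rootMultiplicity_X_sub_C] at h2
        have h3 : a' = a := by
          by_contra hne
          rw [if_neg hne] at h2
          norm_num at h2
        rw [h3, ← rootMultiplicity_pos (hf0 c)] at hr
        fin_cases c
        · exact absurd h0 hr.ne'
        · exact absurd h1 hr.ne'
      have h2 := hω.2.1 q (hdiv q) hnb E (fun l => by
        have hl : l = 0 := Subsingleton.elim _ _
        rw [hl]
        exact hpres)
      rcases h2 with h2 | ⟨s, hs, hs0, h2⟩
      · exact absurd h2 hG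
      · have h3 : q.ord s = ((A s).rootMultiplicity a : ℤ) - (B s).rootMultiplicity a := by
          conv_lhs => rw [hAB s]
          rw [ord_frac htr q (hA0 s hs0) (hB s), hq _ (hA0 s hs0), hq _ (hB s)]
        have h4 : (B s).rootMultiplicity a ≤ (∏ s ∈ S, B s).rootMultiplicity a := by
          rw [le_rootMultiplicity_iff hP0]
          exact (pow_rootMultiplicity_dvd _ _).trans (Finset.dvd_prod_of_mem _ hs)
        have h5 : ((B s).rootMultiplicity a : ℤ) ≤
            ((∏ s ∈ S, B s).rootMultiplicity a : ℤ) := by exact_mod_cast h4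
        rw [h3] at h2
        push_cast at h2
        have h6 : (0 : ℤ) ≤ (A s).rootMultiplicity a := Int.natCast_nonneg _
        linarith
    have h6 : (0 : ℤ) ≤ ((∏ s ∈ S, B s).rootMultiplicity a : ℤ) := Int.natCast_nonneg _
    by_cases h0 : (f 0).rootMultiplicity a = 0
    · by_cases h1 : (f 1).rootMultiplicity a = 0
      · have := hout h0 h1
        rw [h0, h1]
        simpa using this
      · have h2 : (f 1).rootMultiplicity a = 1 := by omega
        have h3 := hroot 1 h1
        rw [h0, h2]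
        push_cast
        linarith
    · have h2 : (f 0).rootMultiplicity a = 1 := by omega
      have h1 : (f 1).rootMultiplicity a = 0 := by omega
      have h3 := hroot 0 h0
      rw [h1, h2]
      push_cast
      linarith)
  rw [hHord, hqi _ hP0, hqi _ (hf0 0), hqi _ (hf0 1)] at hH
  -- the final estimate
  have h1 : (2 * (m : ℤ) - (∑ s ∈ S, (A s).natDegree : ℕ)) +
      -((∏ s ∈ S, B s).natDegree : ℤ) + (((m : ℤ) - ⌈γ 0⌉) * -((f 0).natDegree : ℤ) +
        ((m : ℤ) - ⌈γ 1⌉) * -((f 1).natDegree : ℤ)) ≤ 0 := by linarith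
  have h2 : ((2 * (m : ℝ) - (∑ s ∈ S, (A s).natDegree : ℕ)) +
      -((∏ s ∈ S, B s).natDegree : ℝ) + (((m : ℝ) - ⌈γ 0⌉) * -((f 0).natDegree : ℝ) +
        ((m : ℝ) - ⌈γ 1⌉) * -((f 1).natDegree : ℝ))) ≤ 0 := by exact_mod_cast h1
  have h3 : ((f 0).natDegree : ℝ) * γ 0 ≤ (f 0).natDegree * ⌈γ 0⌉ :=
    mul_le_mul_of_nonneg_left (Int.le_ceil _) (Nat.cast_nonneg _)
  have h4 : ((f 1).natDegree : ℝ) * γ 1 ≤ (f 1).natDegree * ⌈γ 1⌉ :=
    mul_le_mul_of_nonneg_left (Int.le_ceil _) (Nat.cast_nonneg _)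
  rw [Fin.sum_univ_two, Fin.sum_univ_two]
  push_cast at h2 ⊢
  linarith

end Pool.Agent.K1H60.LP
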